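import Pool.Agent.H45.EG3.S3

/-!
# EG3, row EX1: a missing vector ends with a positive entry
-/

set_option autoImplicit false

namespace Pool.EG3

open MvPolynomial Pool.EGH
open Pool.EGC (lx sl cj Gs)

theorem ex52_mo {m : ℕ} {c : Fin m → ℕ∞} {d : ℕ} {x : Fin m → ℕ} :
    x ∈ Mo c d ↔ ∑ i, x i = d ∧ ∀ i, (x i : ℕ∞) < c i := by
  classical
  unfold Mo
  rw [Finset.mem_filter, Finset.mem_piAntidiag]
  constructor
  · rintro ⟨⟨h, _⟩, h2⟩
    exact ⟨h, h2⟩
  · rintro ⟨h, h2⟩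
    exact ⟨⟨h, fun i _ => Finset.mem_univ i⟩, h2⟩

/-- The case of four places, the first three with finite caps. -/
theorem ex52_four (al be ga : ℕ) (hab : al ≤ be) (hbg : be ≤ ga) (hga : 1 ≤ ga) (d : ℕ)
    (A : (ℕ × ℕ × ℕ × ℕ) → Prop)
    (h0 : ∀ x0 x1 x2 x3 y1 y2 y3 : ℕ, A (x0, x1, x2, x3) → x0 + y1 + y2 + y3 = d →
      x0 < al → y1 < be → y2 < ga → (x1 < y1 ∨ (x1 = y1 ∧ x2 < y2)) → A (x0, y1, y2, y3))
    (h1 : ∀ x0 x1 x2 x3 y0 y2 y3 : ℕ, A (x0, x1, x2, x3) → y0 + x1 + y2 + y3 = d →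
      y0 < al → x1 < be → y2 < ga → x0 < y0 → A (y0, x1, y2, y3))
    (h2 : ∀ x0 x1 x2 x3 y0 y1 y3 : ℕ, A (x0, x1, x2, x3) → y0 + y1 + x2 + y3 = d →
      y0 < al → y1 < be → x2 < ga → x0 < y0 → A (y0, y1, x2, y3))
    (h3 : ∀ x0 x1 x2 x3 y0 y1 y2 : ℕ, A (x0, x1, x2, x3) → y0 + y1 + y2 + x3 = d →
      y0 < al → y1 < be → y2 < ga → x0 < y0 → A (y0, y1, y2, x3))
    (a0 a1 a2 a3 b0 b1 b2 : ℕ) (ha : A (a0, a1, a2, a3)) (hb : ¬ A (b0, b1, b2, 0))
    (has : a0 + a1 + a2 + a3 = d) (hbs : b0 + b1 + b2 = d)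
    (ca0 : a0 < al) (ca1 : a1 < be) (ca2 : a2 < ga) (cb0 : b0 < al) (cb1 : b1 < be)
    (cb2 : b2 < ga) (h : a0 < b0) (n1 : a1 ≠ b1) (n2 : a2 ≠ b2) (n3 : a3 ≠ 0) : False := by
  -- the second place
  have e1 : b1 < a1 := by
    by_contra hcon
    have hx : A (a0, b1, 0, d - a0 - b1) :=
      h0 a0 a1 a2 a3 b1 0 (d - a0 - b1) ha (by omega) ca0 cb1 (by omega) (Or.inl (by omega))
    exact hb (h1 a0 b1 0 (d - a0 - b1) b0 b2 0 hx (by omega) cb0 cb1 cb2 h)
  have e2 : b2 < a2 := by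
    by_contra hcon
    have hx : A (b0, b1, a2, b2 - a2) :=
      h2 a0 a1 a2 a3 b0 b1 (b2 - a2) ha (by omega) cb0 cb1 ca2 h
    exact hb (h0 b0 b1 a2 (b2 - a2) b1 b2 0 hx (by omega) cb0 cb1 cb2
      (Or.inr ⟨rfl, by omega⟩))
  have e3 : b1 + b2 < a3 := by
    by_contra hcon
    obtain ⟨x1, x2, hx1, hx2, hx⟩ : ∃ x1 x2, x1 ≤ b1 ∧ x2 ≤ b2 ∧ x1 + x2 + a3 = b1 + b2 := by
      rcases Nat.le_total a3 b1 with h4 | h4
      · exact ⟨b1 - a3, b2, by omega, le_rfl, by omega⟩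
      · exact ⟨0, b1 + b2 - a3, by omega, by omega, by omega⟩
    have hxA : A (b0, x1, x2, a3) :=
      h3 a0 a1 a2 a3 b0 x1 x2 ha (by omega) cb0 (by omega) (by omega) h
    exact hb (h0 b0 x1 x2 a3 b1 b2 0 hxA (by omega) cb0 cb1 cb2 (by omega))
  obtain ⟨x1, x2, hx1, hx2, c1, c2, hx⟩ : ∃ x1 x2, a1 ≤ x1 ∧ a2 ≤ x2 ∧ x1 < be ∧ x2 < ga ∧
      a0 + x1 + x2 = d := by
    rcases Nat.lt_or_ge (d - a0 - a2) be with h4 | h4
    · exact ⟨d - a0 - a2, a2, by omega, le_rfl, h4, ca2, by omega⟩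
    · exact ⟨be - 1, d - a0 - (be - 1), by omega, by omega, by omega, by omega, by omega⟩
  have hxA : A (a0, x1, x2, 0) :=
    h0 a0 a1 a2 a3 x1 x2 0 ha (by omega) ca0 c1 c2 (by omega)
  exact hb (h3 a0 x1 x2 0 b0 b1 b2 hxA (by omega) cb0 cb1 cb2 h)

/-- EX1. -/
theorem t_ex1 : EX1Stmt := by
  intro m c hc d A hA hcm b hb hbA a ha hab hb0
  obtain ⟨hbs, hbc⟩ := ex52_mo.1 hb
  obtain ⟨has, hac⟩ := ex52_mo.1 (hA ha)
  obtain ⟨hmon, -, htop⟩ := hc
  -- no common coordinate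
  have hne : ∀ i, a i ≠ b i := fun i hi => hbA (hcm i a ha b hb hi hab)
  have h0 : a 0 < b 0 := by
    obtain ⟨i, hi, hi2⟩ := hab
    rcases eq_or_ne i 0 with h | h
    · rw [h] at hi2; exact hi2
    · exact absurd (hi 0 (Fin.pos_iff_ne_zero.2 h)) (hne 0)
  have hlast : 1 ≤ a (Fin.last (m + 3)) := by
    have := hne (Fin.last (m + 3))
    omega
  -- the last but one place
  obtain ⟨p, hp⟩ : ∃ p : Fin (m + 4), (p : ℕ) = m + 2 := ⟨⟨m + 2, by omega⟩, rfl⟩
  have hpl : p ≠ Fin.last (m + 3) := by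
    intro h
    have := congrArg Fin.val h
    rw [hp, Fin.val_last] at this
    omega
  have hp0 : p ≠ 0 := by
    intro h
    have := congrArg Fin.val h
    rw [hp, Fin.val_zero] at this
    omega
  have hl0 : Fin.last (m + 3) ≠ 0 := by
    intro h
    have := congrArg Fin.val h
    rw [Fin.val_last, Fin.val_zero] at this
    omega
  by_cases hcp : c p = ⊤
  · -- move everything to the last but one place
    set x : Fin (m + 4) → ℕ := fun i => if i = p then a p + a (Fin.last (m + 3)) else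
      if i = Fin.last (m + 3) then 0 else a i with hx
    have hxp : x p = a p + a (Fin.last (m + 3)) := by simp [hx]
    have hxl : x (Fin.last (m + 3)) = 0 := by simp [hx, Ne.symm hpl]
    have hxo : ∀ i, i ≠ p → i ≠ Fin.last (m + 3) → x i = a i := by
      intro i h1 h2
      simp [hx, h1, h2]
    have hx0 : x 0 = a 0 := hxo 0 (Ne.symm hp0) (Ne.symm hl0)
    have hsum : ∑ i, x i = ∑ i, a i := by
      have e1 : x + Pi.single (Fin.last (m + 3)) (a (Fin.last (m + 3))) =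
          a + Pi.single p (a (Fin.last (m + 3))) := by
        funext i
        by_cases h1 : i = p
        · subst h1
          simp [hxp, hpl]
        · by_cases h2 : i = Fin.last (m + 3)
          · subst h2
            simp [hxl, h1]
          · simp [hxo i h1 h2, h1, h2]
      have e2 : ∑ i, (x + Pi.single (Fin.last (m + 3)) (a (Fin.last (m + 3))) :
          Fin (m + 4) → ℕ) i = ∑ i, (a + Pi.single p (a (Fin.last (m + 3))) :
          Fin (m + 4) → ℕ) i := by rw [e1]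
      simp only [Pi.add_apply, Finset.sum_add_distrib, Finset.sum_pi_single', Finset.mem_univ,
        if_true] at e2
      omega
    have hxM : x ∈ Mo c d := by
      refine ex52_mo.2 ⟨by rw [hsum]; exact has, fun i => ?_⟩
      by_cases h1 : i = p
      · rw [h1, hcp]; exact ENat.natCast_lt_top _
      · by_cases h2 : i = Fin.last (m + 3)
        · rw [h2, hxl]
          exact lt_of_le_of_lt (by exact_mod_cast Nat.zero_le _) (hac (Fin.last (m + 3)))
        · rw [hxo i h1 h2]; exact hac i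
    have hax : lx a x := by
      refine ⟨p, fun k hk => (hxo k hk.ne ?_).symm, by rw [hxp]; omega⟩
      intro h
      rw [h] at hk
      exact absurd hk (not_lt.2 (Fin.le_last p))
    have hxA : x ∈ A := hcm 0 a ha x hxM hx0.symm hax
    have hxb : lx x b := ⟨0, fun k hk => absurd hk (Fin.not_lt_zero k), by rw [hx0]; exact h0⟩
    exact hbA (hcm (Fin.last (m + 3)) x hxA b hb (by rw [hxl, hb0]) hxb)
  · -- four places
    have hm : m = 0 := by
      by_contra hm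
      exact hcp (htop p (by omega))
    subst hm
    have hp2 : p = 2 := Fin.ext (by rw [hp]; rfl)
    rw [hp2] at hcp
    have hc1 : c 1 ≠ ⊤ := fun h => hcp (top_le_iff.1 (h ▸ hmon (show (1 : Fin 4) ≤ 2 by decide)))
    have hc0 : c 0 ≠ ⊤ := fun h => hcp (top_le_iff.1 (h ▸ hmon (show (0 : Fin 4) ≤ 2 by decide)))
    obtain ⟨al, hal⟩ := ENat.ne_top_iff_exists.1 hc0
    obtain ⟨be, hbe⟩ := ENat.ne_top_iff_exists.1 hc1
    obtain ⟨ga, hga⟩ := ENat.ne_top_iff_exists.1 hcp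
    have hc3 : c 3 = ⊤ := htop 3 (by decide)
    have q1 : al ≤ be := by
      have := hmon (show (0 : Fin 4) ≤ 1 by decide)
      rw [← hal, ← hbe] at this
      exact_mod_cast this
    have q2 : be ≤ ga := by
      have := hmon (show (1 : Fin 4) ≤ 2 by decide)
      rw [← hga, ← hbe] at this
      exact_mod_cast this
    have hM : ∀ y0 y1 y2 y3 : ℕ, y0 + y1 + y2 + y3 = d → y0 < al → y1 < be → y2 < ga →
        (![y0, y1, y2, y3] : Fin 4 → ℕ) ∈ Mo c d := by
      intro y0 y1 y2 y3 hs k0 k1 k2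
      refine ex52_mo.2 ⟨by rw [Fin.sum_univ_four]; exact hs, fun i => ?_⟩
      fin_cases i
      · change (y0 : ℕ∞) < c 0
        rw [← hal]; exact_mod_cast k0
      · change (y1 : ℕ∞) < c 1
        rw [← hbe]; exact_mod_cast k1
      · change (y2 : ℕ∞) < c 2
        rw [← hga]; exact_mod_cast k2
      · change (y3 : ℕ∞) < c 3
        rw [hc3]; exact ENat.natCast_lt_top _
    have key : ∀ x0 x1 x2 x3 y0 y1 y2 y3 : ℕ, (![x0, x1, x2, x3] : Fin 4 → ℕ) ∈ A →
        y0 + y1 + y2 + y3 = d → y0 < al → y1 < be → y2 < ga →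
        (x0 < y0 ∨ (x0 = y0 ∧ (x1 < y1 ∨ (x1 = y1 ∧ x2 < y2)))) →
        (x0 = y0 ∨ x1 = y1 ∨ x2 = y2 ∨ x3 = y3) →
        (![y0, y1, y2, y3] : Fin 4 → ℕ) ∈ A := by
      intro x0 x1 x2 x3 y0 y1 y2 y3 hx hs k0 k1 k2 hl he
      have hy := hM y0 y1 y2 y3 hs k0 k1 k2
      have hlx : lx (![x0, x1, x2, x3] : Fin 4 → ℕ) ![y0, y1, y2, y3] := by
        rcases hl with hl | ⟨hl0, hl | ⟨hl1, hl⟩⟩
        · exact ⟨0, fun k hk => absurd hk (Fin.not_lt_zero k), hl⟩
        · refine ⟨1, fun k hk => ?_, hl⟩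
          have : k = 0 := by
            rw [Fin.lt_def] at hk
            exact Fin.ext (by simpa using hk)
          rw [this]; exact hl0
        · refine ⟨2, fun k hk => ?_, hl⟩
          have : k = 0 ∨ k = 1 := by
            rw [Fin.lt_def] at hk
            have hk2 : (k : ℕ) < 2 := hk
            rcases Nat.lt_or_ge (k : ℕ) 1 with h | h
            · left; exact Fin.ext (by change (k : ℕ) = 0; omega)
            · right; exact Fin.ext (by change (k : ℕ) = 1; omega)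
          rcases this with this | this
          · rw [this]; exact hl0
          · rw [this]; exact hl1
      rcases he with he | he | he | he
      · exact hcm 0 _ hx _ hy he hlx
      · exact hcm 1 _ hx _ hy he hlx
      · exact hcm 2 _ hx _ hy he hlx
      · exact hcm 3 _ hx _ hy he hlx
    have ea : a = ![a 0, a 1, a 2, a 3] := by
      funext i
      fin_cases i <;> rfl
    have eb : b = ![b 0, b 1, b 2, 0] := by
      funext i
      fin_cases i
      · rfl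
      · rfl
      · rfl
      · exact hb0
    have cl : ∀ i : Fin 4, (a i : ℕ∞) < c i := hac
    have cb : ∀ i : Fin 4, (b i : ℕ∞) < c i := hbc
    have ca0 := cl 0
    have ca1 := cl 1
    have ca2 := cl 2
    have cb0 := cb 0
    have cb1 := cb 1
    have cb2 := cb 2
    rw [← hal] at ca0 cb0
    rw [← hbe] at ca1 cb1
    rw [← hga] at ca2 cb2
    have hlast' : 1 ≤ a 3 := hlast
    have hb3 : b 3 = 0 := hb0
    refine ex52_four al be ga q1 q2 ?_ d
      (fun t => (![t.1, t.2.1, t.2.2.1, t.2.2.2] : Fin 4 → ℕ) ∈ A) ?_ ?_ ?_ ?_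
      (a 0) (a 1) (a 2) (a 3) (b 0) (b 1) (b 2) (by rw [ea] at ha; exact ha)
      (by rw [eb] at hbA; exact hbA) ?_ ?_ (by exact_mod_cast ca0) (by exact_mod_cast ca1)
      (by exact_mod_cast ca2) (by exact_mod_cast cb0) (by exact_mod_cast cb1)
      (by exact_mod_cast cb2) h0 (hne 1) (hne 2) (by omega)
    · have : (a 2 : ℕ) < ga := by exact_mod_cast ca2
      omega
    · intro x0 x1 x2 x3 y1 y2 y3 hx hs k0 k1 k2 hl
      exact key x0 x1 x2 x3 x0 y1 y2 y3 hx hs k0 k1 k2 (Or.inr ⟨rfl, hl⟩) (Or.inl rfl)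
    · intro x0 x1 x2 x3 y0 y2 y3 hx hs k0 k1 k2 hl
      exact key x0 x1 x2 x3 y0 x1 y2 y3 hx hs k0 k1 k2 (Or.inl hl) (Or.inr (Or.inl rfl))
    · intro x0 x1 x2 x3 y0 y1 y3 hx hs k0 k1 k2 hl
      exact key x0 x1 x2 x3 y0 y1 x2 y3 hx hs k0 k1 k2 (Or.inl hl)
        (Or.inr (Or.inr (Or.inl rfl)))
    · intro x0 x1 x2 x3 y0 y1 y2 hx hs k0 k1 k2 hl
      exact key x0 x1 x2 x3 y0 y1 y2 x3 hx hs k0 k1 k2 (Or.inl hl)
        (Or.inr (Or.inr (Or.inr rfl)))
    · have := has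
      rw [Fin.sum_univ_four] at this
      exact this
    · have := hbs
      rw [Fin.sum_univ_four] at this
      omega

end Pool.EG3
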