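import Pool.Agent.H45.EG3.S1
import Pool.Agent.H85.EGH.GPD

/-!
# EG3, row LN2: restriction to a line without base points
-/

set_option autoImplicit false

namespace Pool.EG3

open MvPolynomial Pool.EGH

namespace LN2h

variable {K : Type} [Field K] {N : ℕ}

theorem mem_gp {Q : Ideal (PR K N)} {i : ℕ} {f : PR K N} (hf : f ∈ fm K N i) :
    Ideal.Quotient.mk Q f ∈ gp Q i := ⟨f, hf, rfl⟩

theorem exists_of_mem_gp {Q : Ideal (PR K N)} {i : ℕ} {w : PR K N ⧸ Q} (hw : w ∈ gp Q i) :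
    ∃ f ∈ fm K N i, Ideal.Quotient.mk Q f = w := by
  obtain ⟨f, hf, h⟩ := hw
  exact ⟨f, hf, h⟩

/-- Multiplication by a linear form, from degree `m` to degree `m + 1`. -/
noncomputable def mm (Q : Ideal (PR K N)) (m : ℕ) (y : PR K N) (hy : y ∈ fm K N 1) :
    ↥(gp Q m) →ₗ[K] ↥(gp Q (m + 1)) :=
  LinearMap.restrict (LinearMap.mulLeft K (Ideal.Quotient.mk Q y)) (by
    intro w hw
    obtain ⟨f, hf, rfl⟩ := exists_of_mem_gp hw
    rw [LinearMap.mulLeft_apply, ← map_mul, add_comm]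
    exact mem_gp (IsHomogeneous.mul hy hf))

theorem mm_coe (Q : Ideal (PR K N)) (m : ℕ) (y : PR K N) (hy : y ∈ fm K N 1) (v : ↥(gp Q m)) :
    ((mm Q m y hy v : ↥(gp Q (m + 1))) : PR K N ⧸ Q) = Ideal.Quotient.mk Q y * v := rfl

theorem fin_gp (Q : Ideal (PR K N)) (i : ℕ) : Module.Finite K ↥(gp Q i) := by
  have := GPDh.fin (K := K) (N := N) i
  unfold gp
  infer_instance

theorem mk_C_mul (Q : Ideal (PR K N)) (a : K) (x : PR K N) :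
    Ideal.Quotient.mk Q (C a * x) = a • Ideal.Quotient.mk Q x := by
  rw [← smul_eq_C_mul]
  rfl

end LN2h

open LN2h in
/-- LN2. -/
theorem t_ln2 (hEV2 : EV2Stmt) (hLNI : LNIStmt) (hPTI : PTIStmt) : LN2Stmt := by
  intro K _ _ J l m hJ hl hl0 hBP h0
  set Q := J ⊔ Ideal.span {l} with hQ
  by_contra hcon
  have hfinE : Module.Finite K ↥(gp Q m) := fin_gp Q m
  have hfinF : Module.Finite K ↥(gp Q (m + 1)) := fin_gp Q (m + 1)
  have e1 := GPDh.dim Q m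
  have e2 := GPDh.dim Q (m + 1)
  obtain ⟨y, hy, z, hz, -, hdir, -⟩ := hLNI K l hl hl0
  obtain ⟨α, β, hαβ, w, hw⟩ := hEV2 K ↥(gp Q m) ↥(gp Q (m + 1)) (mm Q m y hy) (mm Q m z hz)
    (by omega) (by omega)
  obtain ⟨q, hq, hql, -, hspan⟩ := hdir α β hαβ
  obtain ⟨F, hFJ, hF, hFq⟩ := hBP q hq hql
  obtain ⟨p₁, hp₁, p₂, hp₂, -, -, e₁, e₂, -, -, -, -, hdec⟩ := hPTI K q hq
  obtain ⟨G, hG, hGw⟩ := exists_of_mem_gp w.2
  have hG' : G - C (eval q G * (eval q F)⁻¹) * F ∈ fm K 3 (m + 1) := by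
    refine Submodule.sub_mem _ hG ?_
    rw [← smul_eq_C_mul]
    exact Submodule.smul_mem _ _ hF
  have hG'q : eval q (G - C (eval q G * (eval q F)⁻¹) * F) = 0 := by
    simp [hFq]
  obtain ⟨G₁, hG₁, G₂, hG₂, hGd⟩ := hdec m _ hG' hG'q
  obtain ⟨γ₁, δ₁, h₁⟩ := hspan p₁ hp₁ e₁
  obtain ⟨γ₂, δ₂, h₂⟩ := hspan p₂ hp₂ e₂
  have hv : C δ₁ * G₁ + C δ₂ * G₂ ∈ fm K 3 m := by
    refine Submodule.add_mem _ ?_ ?_
    · rw [← smul_eq_C_mul]
      exact Submodule.smul_mem _ _ hG₁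
    · rw [← smul_eq_C_mul]
      exact Submodule.smul_mem _ _ hG₂
  apply hw ⟨Ideal.Quotient.mk Q (C δ₁ * G₁ + C δ₂ * G₂), mem_gp hv⟩
  apply Subtype.ext
  rw [Submodule.coe_add, Submodule.coe_smul, Submodule.coe_smul, mm_coe, mm_coe, ← hGw]
  change α • (Ideal.Quotient.mk Q y * Ideal.Quotient.mk Q (C δ₁ * G₁ + C δ₂ * G₂)) +
    β • (Ideal.Quotient.mk Q z * Ideal.Quotient.mk Q (C δ₁ * G₁ + C δ₂ * G₂)) =
    Ideal.Quotient.mk Q G
  rw [← map_mul, ← map_mul, ← mk_C_mul, ← mk_C_mul, ← map_add]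
  rw [Ideal.Quotient.mk_eq_mk_iff_sub_mem]
  have hlQ : l ∈ Q := Ideal.mem_sup_right (Ideal.mem_span_singleton_self l)
  have hFQ : F ∈ Q := Ideal.mem_sup_left hFJ
  have hkey : C α * (y * (C δ₁ * G₁ + C δ₂ * G₂)) + C β * (z * (C δ₁ * G₁ + C δ₂ * G₂)) - G =
      -(C (eval q G * (eval q F)⁻¹) * F) - (C γ₁ * G₁ + C γ₂ * G₂) * l := by
    have h3 : G = p₁ * G₁ + p₂ * G₂ + C (eval q G * (eval q F)⁻¹) * F := by
      rw [← hGd]
      ring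
    rw [h₁, h₂] at h3
    linear_combination -h3
  rw [hkey]
  exact Q.sub_mem (Q.neg_mem (Q.mul_mem_left _ hFQ)) (Q.mul_mem_left _ hlQ)

end Pool.EG3
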