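import Pool.Agent.H45.EG3.S3
import Pool.Agent.H52.EGH.BAC

/-!
# EG3, BAM: base change to the algebraic closure
-/

set_option autoImplicit false

namespace Pool.EG3

open MvPolynomial Pool.EGH

theorem t_bam : BAMStmt := by
  intro K _ N I rs ds hI hrs hreg
  refine ⟨I.map (MvPolynomial.map (algebraMap K (AlgebraicClosure K))),
    rs.map (MvPolynomial.map (algebraMap K (AlgebraicClosure K))), Pool.EGH.Bac.hg_map _ hI,
    ?_, Pool.EGH.Bac.wr_map _ hreg, fun i => Pool.EGH.Bac.hf_map _ hI i⟩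
  rw [List.forall₂_map_left_iff]
  refine hrs.imp ?_
  rintro f d ⟨h1, h2⟩
  exact ⟨MvPolynomial.IsHomogeneous.map h1 _, Ideal.mem_map_of_mem _ h2⟩

end Pool.EG3
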